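import Pool.Agent.Lib_Inner.RealVocab

/-!
# The inequality `add(𝔛, 𝔇) < cov(ℳ)`, interpreted in a structure `(M, E)`

All quantifiers range over `M`; `w` stands for the set `ω` of the structure.
-/

namespace Pool.Agent.LibMA

open Inner

universe w

variable {M : Type w} (E : M → M → Prop)

/-- the set `{n ∈ ω : f(n) < g(n) ≤ h(n)}` is finite (bounded in `ω`) -/
def FinBetween (w f g h : M) : Prop :=
  ∃ m, E m w ∧ ∀ n, E n w → LeN E m n →
    ∀ a b c, Val E f n a → Val E g n b → Val E h n c → ¬ (E a b ∧ LeN E b c)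

/-- the function `g : ω → ω` avoids middles in the set `P` -/
def Avoids (w g P : M) : Prop :=
  IsFun E g w w ∧ (∀ f, E f P → ¬ DomLE E w g f) ∧
    ∀ f h, E f P → E h P → FinBetween E w f g h ∨ FinBetween E w h g f

/-- the functions `x` and `y` agree below `n` -/
def Agree (x y n : M) : Prop := ∀ i a, E i n → (Val E x i a ↔ Val E y i a)

/-- `B` is nowhere dense in `ω^ω`: every basic open set `{z : z|n = x|n}` contains a basic open set
`{z : z|m = y|m}` disjoint from `B` -/
def NowhereDense (w B : M) : Prop :=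
  ∀ x n, IsFun E x w w → E n w →
    ∃ y m, IsFun E y w w ∧ E m w ∧ LeN E n m ∧ Agree E x y n ∧ ∀ z, E z B → ¬ Agree E z y m

/-- `C` is a meager subset of `ω^ω`: it is covered by a sequence of nowhere dense sets -/
def Meager (w C : M) : Prop :=
  (∀ x, E x C → IsFun E x w w) ∧
    ∃ A b, IsFun E A w b ∧ (∀ n B, E n w → Val E A n B → NowhereDense E w B) ∧
      ∀ x, E x C → ∃ n B, E n w ∧ Val E A n B ∧ E x B

/-- `add(𝔛, 𝔇) < cov(ℳ)`: there is a family `F` of subsets of `ω^ω`, each of which admits a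
function avoiding middles in it, such that `⋃ F` is dominating and such that no family of meager
sets indexed by `F` covers `ω^ω`. -/
def AddLtCov (w : M) : Prop :=
  ∃ F, (∀ P, E P F → (∀ f, E f P → IsFun E f w w) ∧ ∃ g, Avoids E w g P) ∧
    (∀ f, IsFun E f w w → ∃ P h, E P F ∧ E h P ∧ DomLE E w f h) ∧
    ∀ H b, IsFun E H F b → (∀ P C, E P F → Val E H P C → Meager E w C) →
      ∃ x, IsFun E x w w ∧ ∀ P C, E P F → Val E H P C → ¬ E x C

end Pool.Agent.LibMA
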