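import Pool.Agent.Lib_Inner.Real
import Pool.Agent.Lib_MP_294c13_lc.Defs

namespace Pool.Agent.LibMA

open Inner

universe w

namespace FO

open Inner.FO

lemma finBetween (i j k l : ℕ) :
    FO.{w} (fun _ E v => FinBetween E (v i) (v j) (v k) (v l)) :=
  ex (and (mem _ _) (all (imp (mem _ _) (imp (leN _ _) (all (all (all (imp (val _ _ _)
    (imp (val _ _ _) (imp (val _ _ _) (not (and (mem _ _) (leN _ _))))))))))))) 

lemma avoids (i j k : ℕ) : FO.{w} (fun _ E v => Avoids E (v i) (v j) (v k)) :=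
  and (isFun _ _ _) (and (all (imp (mem _ _) (not (domLE _ _ _))))
    (all (all (imp (mem _ _) (imp (mem _ _) (or (finBetween _ _ _ _) (finBetween _ _ _ _)))))))

lemma agree (i j k : ℕ) : FO.{w} (fun _ E v => Agree E (v i) (v j) (v k)) :=
  all (all (imp (mem _ _) (iff (val _ _ _) (val _ _ _))))

lemma nowhereDense (i j : ℕ) : FO.{w} (fun _ E v => NowhereDense E (v i) (v j)) :=
  all (all (imp (isFun _ _ _) (imp (mem _ _) (ex (ex (and (isFun _ _ _) (and (mem _ _)
    (and (leN _ _) (and (agree _ _ _) (all (imp (mem _ _) (not (agree _ _ _)))))))))))))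

lemma meager (i j : ℕ) : FO.{w} (fun _ E v => Meager E (v i) (v j)) :=
  and (all (imp (mem _ _) (isFun _ _ _)))
    (ex (ex (and (isFun _ _ _) (and (all (all (imp (mem _ _) (imp (val _ _ _)
      (nowhereDense _ _))))) (all (imp (mem _ _) (ex (ex (and (mem _ _) (and (val _ _ _)
        (mem _ _)))))))))))

end FO

end Pool.Agent.LibMA
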