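import Pool.Agent.Lib_MP_294c13_lc.DefsFO
import Pool.Agent.Lib_Hechler.Cohen
import Pool.Agent.Lib_Hechler.Index

/-!
# A model of ZFC with `add(𝔛, 𝔇) < cov(ℳ)`

The Hechler-type forcing over the index set `ω₁ × ω₂` adds a dominating family
`g_(α,ξ)`, where `g_(α,ξ) ≤* g_(β,η)` if and only if `(α,ξ) ≤ (β,η)`. The `ω₁` many chains
`S_α = {g_(α,ξ) : ξ < ω₂}` are middle-avoidable, and Cohen-type reals read off from `g_(α₀,ξ)`
show that `ω₁` many meager sets do not cover.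
-/

set_option linter.unusedSectionVars false
set_option linter.unusedVariables false

namespace Pool.Agent.LibMA

open Forcing Name Inner Hechler Code Cardinal

/-! ### general facts on rich models -/

section general
variable {P : Type} [Preorder P] [OrderTop P] {𝔊 : Gen P} (h𝔊 : Rich 𝔊)

lemma Frc.true_of_feq {R : Fam.{1}} (hR : Inner.FO R) (𝔊 : Gen P) (l : List 𝔊.N) (d : 𝔊.N)
    (l' : List (Name P)) {n : ℕ}
    (h : ∀ i, feq (ev d.1 l' i) (ev d.1 (l.map Subtype.val) i) (𝔊.G n))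
    (hf : Frc R (ev d.1 l') (𝔊.G n)) : R 𝔊.M 𝔊.E (ev (𝔊.cls d) (l.map 𝔊.cls)) :=
  Frc.true_list hR 𝔊 l d (hf.congr_names h)

include h𝔊

lemma agree_iff {x y : 𝔊.M} {f g : ℕ → ℕ} (hx : h𝔊.Codes x f) (hy : h𝔊.Codes y g) {n : ℕ} :
    Agree 𝔊.E x y (h𝔊.nu n) ↔ ∀ i < n, f i = g i := by
  constructor
  · intro h i hi
    have h1 := (h (h𝔊.nu i) (h𝔊.nu (f i)) (h𝔊.mem_nu.2 ⟨i, hi, rfl⟩)).1 (hx.2 i)
    rw [hy.val_iff, h𝔊.nu_inj] at h1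
    exact h1
  · intro h i a hi
    obtain ⟨j, hj, rfl⟩ := h𝔊.mem_nu.1 hi
    rw [hx.val_iff, hy.val_iff, h j hj]

/-- if `f ≤* h` then no `g` is between `h` and `f` infinitely often -/
lemma finBetween_of_dom {x y z : 𝔊.M} (hx : IsFun 𝔊.E x h𝔊.om h𝔊.om)
    (hy : IsFun 𝔊.E y h𝔊.om h𝔊.om) (hz : IsFun 𝔊.E z h𝔊.om h𝔊.om)
    (hxy : DomLE 𝔊.E h𝔊.om x y) : FinBetween 𝔊.E h𝔊.om y z x := by
  obtain ⟨f, hf⟩ := h𝔊.exists_codes hx
  obtain ⟨g, hg⟩ := h𝔊.exists_codes hy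
  obtain ⟨k, hk⟩ := h𝔊.exists_codes hz
  rw [h𝔊.domLE_iff hf hg] at hxy
  obtain ⟨m, hm⟩ := hxy
  refine ⟨h𝔊.nu m, h𝔊.nu_mem_om m, ?_⟩
  intro n hn hmn a b c ha hb hc
  obtain ⟨n, rfl⟩ := h𝔊.mem_om.1 hn
  rw [hg.val_iff] at ha
  rw [hk.val_iff] at hb
  rw [hf.val_iff] at hc
  subst ha; subst hb; subst hc
  rw [h𝔊.leN_nu] at hmn ⊢
  rw [h𝔊.mem_nu]
  rintro ⟨⟨j, hj, hj'⟩, h2⟩
  rw [h𝔊.nu_inj] at hj'
  have := hm n hmn
  omega

end general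

/-! ### the forcing -/

/-- the index set -/
abbrev Q : Type := Om1 × Om2

/-- the name of the chain `S_α` -/
noncomputable def SName (α : Om1) : Name (Cond Q) := Name.mk Om2 (fun ξ => gName (α, ξ)) (fun _ => ⊤)

/-- the name of the family of all chains -/
noncomputable def FName : Name (Cond Q) := Name.mk Om1 SName (fun _ => ⊤)

lemma frc_isFun_gName' (b : Q) (p : Cond Q) :
    Frc (fun _ E v => IsFun E (v 0) (v 1) (v 1)) (ev omegaName [gName b, omegaName]) p := by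
  have h := frc_isFun_gName b p (fun _ => omegaName)
  have e : ev omegaName [gName b, omegaName] =
      cons (gName b) (cons omegaName (fun _ => omegaName)) := by
    funext i
    rcases i with _ | _ | i <;> rfl
  rw [e]; exact h

section
variable {𝔊 : Gen (Cond Q)} (h𝔊 : Rich 𝔊)
include h𝔊

lemma mem_FName (hF : FName ∈ 𝔊.N) {x : 𝔊.N} (h : 𝔊.E (𝔊.cls x) (𝔊.cls ⟨FName, hF⟩)) :
    ∃ α n, feq (SName α) x.1 (𝔊.G n) := by
  obtain ⟨n, α, _, h2⟩ := h𝔊.split x.1 x.2 _ hF h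
  exact ⟨α, n, feq_symm h2⟩

lemma mem_SName {α : Om1} (hS : SName α ∈ 𝔊.N) {x : 𝔊.N}
    (h : 𝔊.E (𝔊.cls x) (𝔊.cls ⟨SName α, hS⟩)) : ∃ ξ n, feq (gName (α, ξ)) x.1 (𝔊.G n) := by
  obtain ⟨n, ξ, _, h2⟩ := h𝔊.split x.1 x.2 _ hS h
  exact ⟨ξ, n, feq_symm h2⟩

end

/-! ### the chains are middle-avoidable -/

lemma FO_a : Inner.FO.{1} (fun _ E v => (∀ f, E f (v 1) → IsFun E f (v 0) (v 0)) ∧
    ∃ g, Avoids E (v 0) g (v 1)) :=
  Inner.FO.and (Inner.FO.all (Inner.FO.imp (Inner.FO.mem _ _) (Inner.FO.isFun _ _ _)))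
    (Inner.FO.ex (FO.avoids _ _ _))

lemma frc_a (α : Om1) (p : Cond Q) : Frc (fun _ E v => (∀ f, E f (v 1) → IsFun E f (v 0) (v 0)) ∧
    ∃ g, Avoids E (v 0) g (v 1)) (ev omegaName [omegaName, SName α]) p := by
  obtain ⟨β, hβ⟩ := exists_bound_Om1 {α} (Set.countable_singleton α)
  have hβ : α < β := hβ α rfl
  obtain ⟨η⟩ := (inferInstance : Nonempty Om2)
  refine frc_of_list FO_a _ _ p {gName ((β, η) : Q)} (Set.countable_singleton _)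
    (fun _ : Unit => Set.univ) (fun _ p => ⟨p, le_rfl, trivial⟩) ?_
  intro 𝔊 h𝔊 _ hS _ hl hd
  have hα : SName α ∈ 𝔊.N := hl _ (by simp)
  have hg : gName ((β, η) : Q) ∈ 𝔊.N := hS rfl
  change (∀ f, 𝔊.E f (𝔊.cls ⟨SName α, hα⟩) → IsFun 𝔊.E f h𝔊.om h𝔊.om) ∧
    ∃ g, Avoids 𝔊.E h𝔊.om g (𝔊.cls ⟨SName α, hα⟩)
  have hfun : ∀ f, 𝔊.E f (𝔊.cls ⟨SName α, hα⟩) → IsFun 𝔊.E f h𝔊.om h𝔊.om := by
    intro f hf
    obtain ⟨f', rfl⟩ := 𝔊.exists_rep f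
    obtain ⟨ξ, n, h1⟩ := mem_SName h𝔊 hα hf
    exact Frc.true_of_feq (Inner.FO.isFun 0 1 1) 𝔊 [f', ⟨omegaName, h𝔊.omega_mem⟩]
      ⟨omegaName, h𝔊.omega_mem⟩ [gName (α, ξ), omegaName] (n := n)
      (fun i => by rcases i with _ | _ | i <;> first | exact h1 | exact feq_refl _ _)
      (frc_isFun_gName' _ _)
  refine ⟨hfun, 𝔊.cls ⟨gName (β, η), hg⟩, isFun_gName h𝔊 hg, ?_, ?_⟩
  · intro f hf
    obtain ⟨f', rfl⟩ := 𝔊.exists_rep f
    obtain ⟨ξ, n, h1⟩ := mem_SName h𝔊 hα hf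
    have hlt : ¬ ((β, η) : Q) < (α, ξ) := by
      intro h
      exact absurd (lt_of_lt_of_le hβ h.le.1) (lt_irrefl _)
    have hne : ((β, η) : Q) ≠ (α, ξ) := by
      intro h
      have : β = α := congrArg Prod.fst h
      exact absurd hβ (by rw [this]; exact lt_irrefl _)
    exact Frc.true_of_feq (Inner.FO.not (Inner.FO.domLE 0 1 2)) 𝔊
      [⟨omegaName, h𝔊.omega_mem⟩, ⟨gName (β, η), hg⟩, f']
      ⟨omegaName, h𝔊.omega_mem⟩ [omegaName, gName (β, η), gName (α, ξ)] (n := n)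
      (fun i => by rcases i with _ | _ | _ | i <;> first | exact h1 | exact feq_refl _ _)
      (frc_not_dom hlt hne _)
  · have key : ∀ f h : 𝔊.N, ∀ ξ η' : Om2, ∀ n m, feq (gName (α, ξ)) f.1 (𝔊.G n) →
        feq (gName (α, η')) h.1 (𝔊.G m) → ξ < η' → DomLE 𝔊.E h𝔊.om (𝔊.cls f) (𝔊.cls h) := by
      intro f h ξ η' n m h1 h2 hlt
      have hlt' : ((α, ξ) : Q) < (α, η') := Prod.mk_lt_mk_iff_right.2 hlt
      exact Frc.true_of_feq (Inner.FO.domLE 0 1 2) 𝔊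
        [⟨omegaName, h𝔊.omega_mem⟩, f, h]
        ⟨omegaName, h𝔊.omega_mem⟩ [omegaName, gName (α, ξ), gName (α, η')] (n := max n m)
        (fun i => by
          rcases i with _ | _ | _ | i
          · exact feq_refl _ _
          · exact feq_mono h1 (𝔊.anti (le_max_left _ _))
          · exact feq_mono h2 (𝔊.anti (le_max_right _ _))
          · exact feq_refl _ _)
        (frc_dom_of_lt hlt' _)
    have hgf := isFun_gName h𝔊 hg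
    intro f h hf hh
    have hff := hfun f hf
    have hhf := hfun h hh
    obtain ⟨f', rfl⟩ := 𝔊.exists_rep f
    obtain ⟨h', rfl⟩ := 𝔊.exists_rep h
    obtain ⟨ξ, n, h1⟩ := mem_SName h𝔊 hα hf
    obtain ⟨ξ', m, h2⟩ := mem_SName h𝔊 hα hh
    rcases lt_trichotomy ξ ξ' with h3 | h3 | h3
    · right
      exact finBetween_of_dom h𝔊 hff hhf hgf (key f' h' ξ ξ' n m h1 h2 h3)
    · subst h3
      right
      have : 𝔊.cls f' = 𝔊.cls h' := (𝔊.cls_eq).2 ⟨max n m,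
        feq_trans (feq_symm (feq_mono h1 (𝔊.anti (le_max_left _ _))))
          (feq_mono h2 (𝔊.anti (le_max_right _ _)))⟩
      rw [← this]
      refine finBetween_of_dom h𝔊 hff hff hgf ?_
      obtain ⟨k, hk⟩ := h𝔊.exists_codes hff
      rw [h𝔊.domLE_iff hk hk]
      exact ⟨0, fun _ _ => le_rfl⟩
    · left
      exact finBetween_of_dom h𝔊 hhf hff hgf (key h' f' ξ' ξ m n h2 h1 h3)

/-! ### the union of the chains is dominating -/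

lemma FO_b : Inner.FO.{1} (fun _ E v => IsFun E (v 2) (v 0) (v 0) →
    ∃ P h, E P (v 1) ∧ E h P ∧ DomLE E (v 0) (v 2) h) :=
  Inner.FO.imp (Inner.FO.isFun _ _ _) (Inner.FO.ex (Inner.FO.ex (Inner.FO.and (Inner.FO.mem _ _)
    (Inner.FO.and (Inner.FO.mem _ _) (Inner.FO.domLE _ _ _)))))

lemma frc_b (x : Name (Cond Q)) (p : Cond Q) : Frc (fun _ E v => IsFun E (v 2) (v 0) (v 0) →
    ∃ P h, E P (v 1) ∧ E h P ∧ DomLE E (v 0) (v 2) h) (ev omegaName [omegaName, FName, x]) p := by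
  obtain ⟨A, hA, hAb⟩ := exists_support x
  obtain ⟨α, hα⟩ := exists_bound_Om1 (Prod.fst '' A) (hA.image _)
  obtain ⟨ξ, hξ⟩ := exists_bound_Om2 (Prod.snd '' A)
    ((Cardinal.le_aleph0_iff_set_countable.2 (hA.image _)).trans aleph0_lt_aleph_one.le)
  have hAlt : A ⊆ Set.Iio (α, ξ) := by
    intro a ha
    exact Prod.lt_iff.2 (Or.inl ⟨hα _ ⟨a, ha, rfl⟩, (hξ _ ⟨a, ha, rfl⟩).le⟩)
  refine frc_of_list FO_b _ _ p {SName α, gName (α, ξ)} (by simp)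
    (fun _ : Unit => Set.univ) (fun _ p => ⟨p, le_rfl, trivial⟩) ?_
  intro 𝔊 h𝔊 _ hS _ hl hd
  have hF : FName ∈ 𝔊.N := hl _ (by simp)
  have hx : x ∈ 𝔊.N := hl _ (by simp)
  have hSα : SName α ∈ 𝔊.N := hS (by simp)
  have hg : gName (α, ξ) ∈ 𝔊.N := hS (by simp)
  change IsFun 𝔊.E (𝔊.cls ⟨x, hx⟩) h𝔊.om h𝔊.om →
    ∃ P h, 𝔊.E P (𝔊.cls ⟨FName, hF⟩) ∧ 𝔊.E h P ∧ DomLE 𝔊.E h𝔊.om (𝔊.cls ⟨x, hx⟩) h
  intro hfun
  refine ⟨𝔊.cls ⟨SName α, hSα⟩, 𝔊.cls ⟨gName (α, ξ), hg⟩,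
    ⟨0, fmem_nm FName α le_top⟩, ⟨0, fmem_nm (SName α) ξ le_top⟩, ?_⟩
  have h1 := Frc.true_list (Inner.FO.imp (Inner.FO.isFun 1 0 0) (Inner.FO.domLE 0 1 2)) 𝔊
    [⟨omegaName, h𝔊.omega_mem⟩, ⟨x, hx⟩, ⟨gName (α, ξ), hg⟩] ⟨omegaName, h𝔊.omega_mem⟩ (n := 0)
    (hAb (α, ξ) hAlt _)
  exact h1 hfun

/-! ### `ω₁` many meager sets do not cover -/

/-- `A` witnesses that the value of `H` at `S` is meager -/
def Wit {M : Type 1} (E : M → M → Prop) (A w S H : M) : Prop :=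
  ∃ C, Val E H S C ∧ ∃ b, IsFun E A w b ∧ (∀ n B, E n w → Val E A n B → NowhereDense E w B) ∧
      ∀ x, E x C → ∃ n B, E n w ∧ Val E A n B ∧ E x B

/-- no element of the `k`-th set agrees with `y` below `m` -/
def NoExt {M : Type 1} (E : M → M → Prop) (A k y m : M) : Prop :=
  ∀ C, Val E A k C → ∀ z, E z C → ¬ Agree E z y m

lemma FO_wit (i j k l : ℕ) : Inner.FO.{1} (fun _ E v => Wit E (v i) (v j) (v k) (v l)) :=
  Inner.FO.ex (Inner.FO.and (Inner.FO.val _ _ _) (Inner.FO.ex (Inner.FO.and (Inner.FO.isFun _ _ _)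
    (Inner.FO.and (Inner.FO.all (Inner.FO.all (Inner.FO.imp (Inner.FO.mem _ _)
      (Inner.FO.imp (Inner.FO.val _ _ _) (FO.nowhereDense _ _)))))
      (Inner.FO.all (Inner.FO.imp (Inner.FO.mem _ _) (Inner.FO.ex (Inner.FO.ex
        (Inner.FO.and (Inner.FO.mem _ _) (Inner.FO.and (Inner.FO.val _ _ _)
          (Inner.FO.mem _ _)))))))))))

lemma FO_noExt (i j k l : ℕ) : Inner.FO.{1} (fun _ E v => NoExt E (v i) (v j) (v k) (v l)) :=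
  Inner.FO.all (Inner.FO.imp (Inner.FO.val _ _ _) (Inner.FO.all (Inner.FO.imp (Inner.FO.mem _ _)
    (Inner.FO.not (FO.agree _ _ _)))))

/-- the real given by a finite list -/
def lreal (t : List ℕ) : ℕ → ℕ := fun i => t.getD i 0

/-- conditions forcing that some extension of `s` has no common extension with `A(k)` -/
def Ecal (A : Name (Cond Q)) (k : ℕ) (s : List ℕ) : Set (Cond Q) :=
  {p | ∃ t, s <+: t ∧ Frc (fun _ E v => NoExt E (v 0) (v 1) (v 2) (v 3))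
    (ev omegaName [A, num k, funName (lreal t), num t.length]) p}

lemma Ecal_mono {A : Name (Cond Q)} {k : ℕ} {s : List ℕ} {p q : Cond Q} (h : p ∈ Ecal A k s)
    (hq : q ≤ p) : q ∈ Ecal A k s := by
  obtain ⟨t, h1, h2⟩ := h
  exact ⟨t, h1, h2.mono hq⟩

lemma FO_3 : Inner.FO.{1} (fun _ E v =>
    (∀ C C', Val E (v 2) (v 1) C → Val E (v 2) (v 1) C' → C = C') →
    (∀ C, Val E (v 2) (v 1) C → Meager E (v 0) C) →
    ∀ C, Val E (v 2) (v 1) C → ¬ E (v 3) C) :=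
  Inner.FO.imp (Inner.FO.all (Inner.FO.all (Inner.FO.imp (Inner.FO.val _ _ _)
    (Inner.FO.imp (Inner.FO.val _ _ _) (Inner.FO.eq _ _)))))
    (Inner.FO.imp (Inner.FO.all (Inner.FO.imp (Inner.FO.val _ _ _) (FO.meager _ _)))
      (Inner.FO.all (Inner.FO.imp (Inner.FO.val _ _ _) (Inner.FO.not (Inner.FO.mem _ _)))))

/-- the main density argument -/
lemma exists_index (H : Name (Cond Q)) : ∃ b : Q, ∀ (α : Om1) (p : Cond Q), Frc (fun _ E v =>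
    (∀ C C', Val E (v 2) (v 1) C → Val E (v 2) (v 1) C' → C = C') →
    (∀ C, Val E (v 2) (v 1) C → Meager E (v 0) C) →
    ∀ C, Val E (v 2) (v 1) C → ¬ E (v 3) C)
    (ev omegaName [omegaName, SName α, H, cName b]) p := by
  -- witnesses for meagerness
  choose A hA using fun α : Om1 => exists_name (P := Cond Q) (FO_wit 0 1 2 3)
    (ev omegaName [omegaName, SName α, H])
  -- dense open sets deciding how to avoid
  let D : Om1 → ℕ → List ℕ → Set (Cond Q) := fun α k s =>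
    {p | p ∈ Ecal (A α) k s ∨ ∀ q ≤ p, q ∉ Ecal (A α) k s}
  have hD : ∀ α k s p, ∃ q ≤ p, q ∈ D α k s := by
    intro α k s p
    by_cases h : ∃ q ≤ p, q ∈ Ecal (A α) k s
    · obtain ⟨q, hq, h⟩ := h; exact ⟨q, hq, Or.inl h⟩
    · push Not at h; exact ⟨p, le_rfl, Or.inr h⟩
  have hop : ∀ α k s, ∀ p ∈ D α k s, ∀ q ≤ p, q ∈ D α k s := by
    rintro α k s p (h | h) q hq
    · exact Or.inl (Ecal_mono h hq)
    · exact Or.inr fun r hr => h r (hr.trans hq)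
  choose c hcD hcp using fun α k s => exists_predense_seq (D α k s) (hD α k s) (hop α k s)
  -- bound for the supports
  have hcard : #(Om1 × ℕ × List ℕ × ℕ) ≤ ℵ₁ := by
    rw [Cardinal.mk_prod, Cardinal.lift_id, Cardinal.lift_id, Cardinal.mk_ord_toType]
    refine (Cardinal.mul_le_max_of_aleph0_le_left aleph0_lt_aleph_one.le).trans
      (max_le le_rfl ?_)
    exact (Cardinal.mk_le_aleph0 (α := ℕ × List ℕ × ℕ)).trans aleph0_lt_aleph_one.le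
  obtain ⟨ξ, hξ⟩ := exists_bound_Om2_iUnion hcard
    (fun i => Prod.snd '' (c i.1 i.2.1 i.2.2.1 i.2.2.2).supp)
    (fun i => ((c i.1 i.2.1 i.2.2.1 i.2.2.2).supp_finite.countable).image _)
  obtain ⟨α₀⟩ := (inferInstance : Nonempty Om1)
  let L : Set Q := {q | q.2 < ξ}
  have hL : Down L := by
    intro q hq r hr
    have hr' : r < q := hr
    exact lt_of_le_of_lt (show r.2 ≤ q.2 from hr'.le.2) hq
  have hbL : ((α₀, ξ) : Q) ∉ L := lt_irrefl ξ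
  have hcL : ∀ α k s j, (c α k s j).supp ⊆ L := by
    intro α k s j q hq
    exact hξ (α, k, s, j) q.2 ⟨q, hq, rfl⟩
  refine ⟨(α₀, ξ), fun α p => ?_⟩
  -- the dense sets met by the Cohen-type real
  let D' : ℕ → Set (Cond Q) := fun k => {q |
    (∃ t, Frc (fun _ E v => NoExt E (v 0) (v 1) (v 2) (v 3))
      (ev omegaName [A α, num k, funName (lreal t), num t.length]) q ∧
      t <+: (q.1.s (α₀, ξ)).map phi) ∨ ∃ s, ∀ r ≤ q, r ∉ Ecal (A α) k s}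
  have hD' : ∀ k p, ∃ q ≤ p, q ∈ D' k := by
    intro k p
    obtain ⟨q, hq, ⟨j, hj⟩, hqs⟩ := exists_below_of_predense hL
      (c α k ((p.1.s (α₀, ξ)).map phi)) (hcL _ _ _) (hcp _ _ _) p
    have hs := hqs _ hbL
    rcases hcD α k ((p.1.s (α₀, ξ)).map phi) j with h1 | h1
    · obtain ⟨t, ⟨t', rfl⟩, ht⟩ := h1
      obtain ⟨r, hr, hrs⟩ := exists_match (α₀, ξ) t' q
      refine ⟨r, hr.trans hq, Or.inl ⟨_, ht.mono (hr.trans hj), ?_⟩⟩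
      rw [hrs, hs]
    · exact ⟨q, hq, Or.inr ⟨_, fun r hr => h1 r (hr.trans hj)⟩⟩
  refine frc_of_list FO_3 _ _ p ({A α} ∪ Set.range fun t : List ℕ => funName (lreal t))
    ((Set.countable_singleton _).union (Set.countable_range _)) D' hD' ?_
  intro 𝔊 h𝔊 _ hS hG hl hd
  have hSα : SName α ∈ 𝔊.N := hl _ (by simp)
  have hH : H ∈ 𝔊.N := hl _ (by simp)
  have hx : cName ((α₀, ξ) : Q) ∈ 𝔊.N := hl _ (by simp)
  have hAα : A α ∈ 𝔊.N := hS (Or.inl rfl)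
  have hlr : ∀ t : List ℕ, funName (lreal t) ∈ 𝔊.N := fun t => hS (Or.inr ⟨t, rfl⟩)
  change (∀ C C', Val 𝔊.E (𝔊.cls ⟨H, hH⟩) (𝔊.cls ⟨SName α, hSα⟩) C →
      Val 𝔊.E (𝔊.cls ⟨H, hH⟩) (𝔊.cls ⟨SName α, hSα⟩) C' → C = C') →
    (∀ C, Val 𝔊.E (𝔊.cls ⟨H, hH⟩) (𝔊.cls ⟨SName α, hSα⟩) C → Meager 𝔊.E h𝔊.om C) →
    ∀ C, Val 𝔊.E (𝔊.cls ⟨H, hH⟩) (𝔊.cls ⟨SName α, hSα⟩) C → ¬ 𝔊.E (𝔊.cls ⟨cName (α₀, ξ), hx⟩) C
  intro huniq hmeag C hC hxC
  -- the witness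
  have hex : ∃ y, Wit 𝔊.E y h𝔊.om (𝔊.cls ⟨SName α, hSα⟩) (𝔊.cls ⟨H, hH⟩) := by
    obtain ⟨_, A', b, h1, h2, h3⟩ := hmeag C hC
    exact ⟨A', C, hC, b, h1, h2, h3⟩
  have hex2 := (truth_list (Inner.FO.ex (R := fun M E y v => Wit E y (v 0) (v 1) (v 2))
    (FO_wit 0 1 2 3)) 𝔊
    [⟨omegaName, h𝔊.omega_mem⟩, ⟨SName α, hSα⟩, ⟨H, hH⟩] ⟨omegaName, h𝔊.omega_mem⟩).1 hex
  obtain ⟨n0, hn0⟩ := hex2
  have hwit := hA α (𝔊.G n0) hn0
  have e1 : cons (A α) (ev omegaName [omegaName, SName α, H]) =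
      ev omegaName [A α, omegaName, SName α, H] := by
    funext i
    rcases i with _ | i <;> rfl
  rw [e1] at hwit
  have hwit2 := Frc.true_list (FO_wit 0 1 2 3) 𝔊 [⟨A α, hAα⟩, ⟨omegaName, h𝔊.omega_mem⟩,
    ⟨SName α, hSα⟩, ⟨H, hH⟩] ⟨omegaName, h𝔊.omega_mem⟩ hwit
  have hwit3 : Wit 𝔊.E (𝔊.cls ⟨A α, hAα⟩) h𝔊.om (𝔊.cls ⟨SName α, hSα⟩) (𝔊.cls ⟨H, hH⟩) := hwit2
  obtain ⟨C', hC', b, hfun, hnd, hcov⟩ := hwit3
  have hCC : C' = C := huniq _ _ hC' hC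
  subst hCC
  obtain ⟨n, B, hn, hB, hxB⟩ := hcov _ hxC
  obtain ⟨k, rfl⟩ := h𝔊.mem_om.1 hn
  obtain ⟨f, hf, hf'⟩ := codes_cName h𝔊 hx
  obtain ⟨n1, hn1⟩ := hG k
  rcases hn1 with ⟨t, ht1, ht2⟩ | ⟨s, hs⟩
  · -- the Cohen-type real extends `t`
    have h1 := Frc.true_list (FO_noExt 0 1 2 3) 𝔊 [⟨A α, hAα⟩, ⟨num k, h𝔊.num_mem k⟩,
      ⟨funName (lreal t), hlr t⟩, ⟨num t.length, h𝔊.num_mem _⟩] ⟨omegaName, h𝔊.omega_mem⟩ ht1
    have h2 : NoExt 𝔊.E (𝔊.cls ⟨A α, hAα⟩) (h𝔊.nu k) (𝔊.cls ⟨funName (lreal t), hlr t⟩)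
      (h𝔊.nu t.length) := h1
    refine h2 B hB _ hxB ?_
    rw [agree_iff h𝔊 hf (codes_funName h𝔊 _ (hlr t))]
    intro i hi
    have hi2 : i < ((𝔊.G n1).1.s (α₀, ξ)).length := by
      have := ht2.length_le
      rw [List.length_map] at this
      omega
    rw [hf' i _ n1 ⟨hi2, rfl⟩]
    unfold lreal
    have h3 := getD_of_prefix ht2 hi
    rw [← h3]
    simp [List.getD, hi2]
  · -- otherwise use that `B` is nowhere dense
    obtain ⟨y, m, hy, hm, hnm, hag, hno⟩ := hnd _ B hn hB (𝔊.cls ⟨funName (lreal s), hlr s⟩)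
      (h𝔊.nu s.length) (codes_funName h𝔊 _ (hlr s)).1 (h𝔊.nu_mem_om _)
    obtain ⟨g, hg⟩ := h𝔊.exists_codes hy
    obtain ⟨m, rfl⟩ := h𝔊.mem_om.1 hm
    rw [h𝔊.leN_nu] at hnm
    rw [agree_iff h𝔊 (codes_funName h𝔊 _ (hlr s)) hg] at hag
    let t : List ℕ := (List.range m).map g
    have htl : t.length = m := by simp [t]
    have hst : s <+: t := by
      rw [List.prefix_iff_eq_take]
      apply List.ext_getElem
      · simp [t, hnm]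
      · intro i h1 h2
        have h3 := hag i h1
        simp only [lreal, List.getD, List.getElem?_eq_getElem h1, Option.getD_some] at h3
        simp [t, h3]
    have hNE : NoExt 𝔊.E (𝔊.cls ⟨A α, hAα⟩) (h𝔊.nu k) (𝔊.cls ⟨funName (lreal t), hlr t⟩)
        (h𝔊.nu t.length) := by
      intro B' hB' z hz hzt
      have hBB : B' = B := by
        obtain ⟨B0, _, hu⟩ := hfun.2 _ hn
        rw [hu B' hB', hu B hB]
      subst hBB
      refine hno z hz ?_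
      -- `z` agrees with `t`, hence with `y`
      intro i a hi
      have hi' : 𝔊.E i (h𝔊.nu t.length) := by rw [htl]; exact hi
      rw [hzt i a hi']
      obtain ⟨j, hj, rfl⟩ := h𝔊.mem_nu.1 hi
      rw [(codes_funName h𝔊 _ (hlr t)).val_iff, hg.val_iff]
      have : lreal t j = g j := by
        simp [lreal, t, List.getD, hj]
      rw [this]
    have h4 := (truth_list (FO_noExt 0 1 2 3) 𝔊 [⟨A α, hAα⟩, ⟨num k, h𝔊.num_mem k⟩,
      ⟨funName (lreal t), hlr t⟩, ⟨num t.length, h𝔊.num_mem _⟩] ⟨omegaName, h𝔊.omega_mem⟩).1 hNE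
    obtain ⟨n2, hn2⟩ := h4
    exact hs (𝔊.G (max n1 n2)) (𝔊.anti (le_max_left _ _))
      ⟨t, hst, Frc.mono hn2 (𝔊.anti (le_max_right _ _))⟩

lemma FO_c : Inner.FO.{1} (fun _ E v => ∀ b, IsFun E (v 2) (v 1) b →
    (∀ P C, E P (v 1) → Val E (v 2) P C → Meager E (v 0) C) →
      ∃ x, IsFun E x (v 0) (v 0) ∧ ∀ P C, E P (v 1) → Val E (v 2) P C → ¬ E x C) :=
  Inner.FO.all (Inner.FO.imp (Inner.FO.isFun _ _ _) (Inner.FO.imp (Inner.FO.all (Inner.FO.all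
    (Inner.FO.imp (Inner.FO.mem _ _) (Inner.FO.imp (Inner.FO.val _ _ _) (FO.meager _ _)))))
    (Inner.FO.ex (Inner.FO.and (Inner.FO.isFun _ _ _) (Inner.FO.all (Inner.FO.all
      (Inner.FO.imp (Inner.FO.mem _ _) (Inner.FO.imp (Inner.FO.val _ _ _)
        (Inner.FO.not (Inner.FO.mem _ _))))))))))

lemma frc_c (H : Name (Cond Q)) (p : Cond Q) : Frc (fun _ E v => ∀ b, IsFun E (v 2) (v 1) b →
    (∀ P C, E P (v 1) → Val E (v 2) P C → Meager E (v 0) C) →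
      ∃ x, IsFun E x (v 0) (v 0) ∧ ∀ P C, E P (v 1) → Val E (v 2) P C → ¬ E x C)
    (ev omegaName [omegaName, FName, H]) p := by
  obtain ⟨b, hb⟩ := exists_index H
  refine frc_of_list FO_c _ _ p {cName b} (Set.countable_singleton _)
    (fun _ : Unit => Set.univ) (fun _ p => ⟨p, le_rfl, trivial⟩) ?_
  intro 𝔊 h𝔊 _ hS _ hl hd
  have hF : FName ∈ 𝔊.N := hl _ (by simp)
  have hH : H ∈ 𝔊.N := hl _ (by simp)
  have hx : cName b ∈ 𝔊.N := hS rfl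
  change ∀ b, IsFun 𝔊.E (𝔊.cls ⟨H, hH⟩) (𝔊.cls ⟨FName, hF⟩) b →
    (∀ P C, 𝔊.E P (𝔊.cls ⟨FName, hF⟩) → Val 𝔊.E (𝔊.cls ⟨H, hH⟩) P C → Meager 𝔊.E h𝔊.om C) →
      ∃ x, IsFun 𝔊.E x h𝔊.om h𝔊.om ∧
        ∀ P C, 𝔊.E P (𝔊.cls ⟨FName, hF⟩) → Val 𝔊.E (𝔊.cls ⟨H, hH⟩) P C → ¬ 𝔊.E x C
  intro b' hfun hmeag
  refine ⟨𝔊.cls ⟨cName b, hx⟩, isFun_cName h𝔊 hx, ?_⟩
  intro P C hP hC
  obtain ⟨P', rfl⟩ := 𝔊.exists_rep P
  obtain ⟨α, n, h1⟩ := mem_FName h𝔊 hF hP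
  have h2 := Frc.true_of_feq FO_3 𝔊 [⟨omegaName, h𝔊.omega_mem⟩, P', ⟨H, hH⟩, ⟨cName b, hx⟩]
    ⟨omegaName, h𝔊.omega_mem⟩ [omegaName, SName α, H, cName b] (n := n)
    (fun i => by rcases i with _ | _ | _ | _ | i <;> first | exact h1 | exact feq_refl _ _)
    (hb α _)
  refine h2 ?_ (fun C hC => hmeag _ C hP hC) C hC
  intro C1 C2 h3 h4
  obtain ⟨C0, _, hu⟩ := hfun.2 _ hP
  rw [hu C1 h3, hu C2 h4]

/-! ### the model -/

theorem exists_model : ∃ (M : Type 1) (E : M → M → Prop), Countable M ∧ ModelsZFC E ∧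
    ∃ w, IsOmega E w ∧ AddLtCov E w := by
  obtain ⟨𝔊, h𝔊, _, hS, _, _⟩ := exists_rich (P := Cond Q) (ι := Empty) (κ := Empty) {FName}
    (Set.countable_singleton _) (fun k => k.elim) (fun k => k.elim) (fun k => k.elim) ⊤
  have hF : FName ∈ 𝔊.N := hS rfl
  have : Countable 𝔊.N := 𝔊.countable.to_subtype
  refine ⟨𝔊.M, 𝔊.E, ?_, 𝔊.modelsZFC, h𝔊.om, h𝔊.isOmega_om, 𝔊.cls ⟨FName, hF⟩, ?_, ?_, ?_⟩
  · exact (Quotient.mk_surjective (s := 𝔊.setoid)).countable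
  · intro P hP
    obtain ⟨P', rfl⟩ := 𝔊.exists_rep P
    obtain ⟨α, n, h1⟩ := mem_FName h𝔊 hF hP
    exact Frc.true_of_feq FO_a 𝔊 [⟨omegaName, h𝔊.omega_mem⟩, P'] ⟨omegaName, h𝔊.omega_mem⟩
      [omegaName, SName α] (n := n)
      (fun i => by rcases i with _ | _ | i <;> first | exact h1 | exact feq_refl _ _)
      (frc_a α _)
  · intro f
    obtain ⟨f', rfl⟩ := 𝔊.exists_rep f
    exact Frc.true_list FO_b 𝔊 [⟨omegaName, h𝔊.omega_mem⟩, ⟨FName, hF⟩, f']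
      ⟨omegaName, h𝔊.omega_mem⟩ (n := 0) (frc_b f'.1 _)
  · intro H
    obtain ⟨H', rfl⟩ := 𝔊.exists_rep H
    exact Frc.true_list FO_c 𝔊 [⟨omegaName, h𝔊.omega_mem⟩, ⟨FName, hF⟩, H']
      ⟨omegaName, h𝔊.omega_mem⟩ (n := 0) (frc_c H'.1 _)

end Pool.Agent.LibMA
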